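import Mathlib

/-!
# MP_5ee2d0_ag: sections which lift to high order lift to all orders

`XX → Δ'` is a model over the base change `t = t'^d` of the local ring of a point of the curve `T`, its
special fibre `X` is semi log canonical with trivial canonical class, `h^1(O_X) = h^2(O_X) = 0`; `N''` is a
nef class of `XX`, `σ` a section of `n N''` modulo `t'^i` which is zero at no log canonical centre of `X`.
`M` is a multiple `k N''`, `k = m n`, `m ≥ 2`, a line bundle which is generated by its sections on `X`,
`v₀` is the restriction of `σ^m` to `X`. We show that a general section `u` of `M` on `X` lifts modulo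
`t'^i`; if `i` is larger than a number which depends only on the limit of `H^3(X_t)` then it lifts to all
orders.

Let `u_τ = v₀ + τ (u - v₀)`, `0 < τ ≤ 1`, and `R_τ` its divisor. If the lift `x` of `u` has the
obstruction `o` then the lift `σ^m + τ (x - σ^m)` of `u_τ` has the obstruction `τ o`. For a flat family of
classes `a_τ` of `H^1(R_τ, ℂ)` the product with the obstruction is a Taylor coefficient of a function
which depends only on the image of `a_τ` in `H^3(X, ℂ)`, so it is constant. It tends to zero with `τ`.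
-/

namespace Pool.Agent.H15.N2

open Filter Topology PowerSeries

/-- the function `g(t'^d)` -/
noncomputable def pull (d : ℕ) (g : PowerSeries ℂ) : PowerSeries ℂ :=
  PowerSeries.mk fun n => if d ∣ n then coeff (n / d) g else 0

/-- The data of one model. `H` is the space of the invariant classes of the limit of `H^3(X_t, ℂ)` and
`g c` the function `⟨Ω_t, c⟩`, where `Ω` is a generator of the direct image of the relative canonical
sheaf; `Eff` says that a positive multiple of `L` is effective on `X_t`. -/
structure Long (i d : ℕ) {H : Type} [AddCommGroup H] [Module ℂ H] (g : H →ₗ[ℂ] PowerSeries ℂ)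
    (Eff : Prop) where
  d_pos : 0 < d
  /-- `H^0(X, M)` -/
  V : Type
  [grpV : AddCommGroup V]
  [modV : Module ℂ V]
  /-- the sections of `M` modulo `t'^(l+1)` -/
  S : ℕ → Type
  [grpS : ∀ l, AddCommGroup (S l)]
  [modS : ∀ l, Module ℂ (S l)]
  res : ∀ l, S l →ₗ[ℂ] V
  trunc : ∀ l, S (l + 1) →ₗ[ℂ] S l
  res_trunc : ∀ l x, res l (trunc l x) = res (l + 1) x
  /-- sections modulo `t'` are sections on `X` -/
  res_onto : Function.Surjective (res 0)
  /-- `H^1(X, M)` -/
  Ob : Type
  [grpO : AddCommGroup Ob]
  [modO : Module ℂ Ob]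
  /-- the connecting homomorphism -/
  ob : ∀ l, S l →ₗ[ℂ] Ob
  lift : ∀ l x, ob l x = 0 → ∃ y, trunc l y = x
  v₀ : V
  /-- the power `σ^m` is a section modulo `t'^i` -/
  pow : ∀ l, l + 1 < i → ∃ y, res l y = v₀ ∧ ob l y = 0
  /-- A general section, in particular it is not zero. For all real numbers `τ` with `0 < τ ≤ 1` the
  divisors `R_τ` are semi log canonical, and locally trivial over the segment: only finitely many `τ` are
  exceptional in the pencil, so this is true for `v₀ + ε (u - v₀)` instead of `u` and small `ε > 0`. -/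
  u : V
  /-- flat sections over the segment of the spaces `H^1(R_τ, ℂ)` -/
  A : Type
  /-- Identify `H^1(X, M)` with `H^1(R_τ, ω)` by the residues of `o / u_τ`; product with the component of
  `a_τ` in `H^1(R_τ, O)`, and trace -/
  pair : ℝ → Ob → A → ℂ
  pair_smul : ∀ τ (z : ℂ) o a, pair τ (z • o) a = z * pair τ o a
  /-- The function `f_a` on `Δ'` is the image of the product of `a_τ` and the localised Chern class of
  `(M, u_τ)`, which is locally constant in `τ`, under `H^3_R(X, ℂ) → H^3(X, ℂ) = H^3(XX, ℂ) → R^3 π_* O = O`;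
  it does not depend on `τ`. -/
  f : A → PowerSeries ℂ
  /-- the localised Chern class is zero in `H^2_R(X, O)` -/
  f_zero : ∀ a, coeff 0 (f a) = 0
  /-- see `Sect.taylor` -/
  taylor : ∀ l a (τ : ℝ) (x : S l), 0 < τ → τ ≤ 1 → res l x = v₀ + (τ : ℂ) • (u - v₀) →
    coeff (l + 1) (f a) = pair τ (ob l x) a
  /-- Let `h` be a general very ample divisor of `X` with `H^1(X, M + h) = 0`. Then `o` is the image of a
  section `θ` of `M + h` on `h`, independent of `τ`. The curve `R_τ ∩ h` is nodal, so `a_τ` restricted to
  it comes from a class which is zero at the nodes, and the product is the integral of the residue of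
  `θ / u_τ` over a flat family of closed cycles in the regular part of the curve. On a log resolution of
  the normalisation of `X` let `a_j ≥ -1` be the discrepancies and `A_j` the orders of `v₀`. Since `σ` is
  zero at no log canonical centre, `a_j > -1` if `A_j > 0`, so the total space of the family of the curves
  has no log canonical centre over `τ = 0` (it is `x^A + τ y = 0`). The integral is at most a power of
  `|log τ|` times `τ^(-1+δ)`, `δ` the minimum of the numbers `(1 + a_j) / A_j` with `A_j > 0`
  (Steenbrink; Arnold, Varchenko). -/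
  growth : ∀ o a, Tendsto (fun τ : ℝ => (τ : ℂ) * pair τ o a) (𝓝[>] 0) (𝓝 0)
  /-- `H^1(X, M) = H^1(R_1, ω)` since `h^1(O_X) = h^2(O_X) = 0`, and Serre duality on `R_1`, which is
  Cohen-Macaulay like `X`, a Cartier divisor of a klt fourfold. `H^1(R_1, ℂ) → H^1(R_1, O)` is onto because
  `R_1` is semi log canonical, so it is Du Bois (Kollár, Kovács), and every class belongs to a flat section
  over the segment. -/
  serre : ∀ o, (∀ a, pair 1 o a = 0) → o = 0
  /-- the image of `a_τ` in the space of invariant classes -/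
  cls : A → H
  /-- `Ω` and the generator on `XX` differ by a unit: both generate the canonical extension. The monodromy
  `T` is unipotent, so the invariant classes of `T^d` are those of `T`. -/
  unit : PowerSeries ℂ
  unit_ne : constantCoeff unit ≠ 0
  f_eq : ∀ a, f a = unit * pull d (g (cls a))
  /-- Grothendieck: a section over the formal completion, not zero on `X` -/
  algebraize : (∃ x : ∀ l, S l, res 0 (x 0) = u ∧ ∀ l, trunc l (x (l + 1)) = x l) → Eff

attribute [instance] Long.grpV Long.modV Long.grpS Long.modS Long.grpO Long.modO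

/-- the orders of the nonzero functions of a space of finite dimension are bounded -/
theorem exists_order {H : Type} [AddCommGroup H] [Module ℂ H] [Module.Finite ℂ H]
    (g : H →ₗ[ℂ] PowerSeries ℂ) : ∃ l₀ : ℕ, ∀ c, (∀ l < l₀, coeff l (g c) = 0) → g c = 0 := by
  let K : ℕ → Submodule ℂ H := fun l =>
    { carrier := {c | ∀ j < l, coeff j (g c) = 0}
      add_mem' := fun {a b} ha hb j hj => by rw [map_add, map_add, ha j hj, hb j hj, add_zero]
      zero_mem' := fun j _ => by rw [map_zero, map_zero]
      smul_mem' := fun z a ha j hj => by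
        rw [map_smul, PowerSeries.coeff_smul, ha j hj, smul_zero] }
  have hK : ∀ l c, c ∈ K l ↔ ∀ j < l, coeff j (g c) = 0 := fun l c => Iff.rfl
  let F : ℕ →o (Submodule ℂ H)ᵒᵈ :=
    ⟨K, fun a b hab => show K b ≤ K a from fun c hc j hj => hc j (lt_of_lt_of_le hj hab)⟩
  obtain ⟨n, hn⟩ := IsArtinian.monotone_stabilizes F
  refine ⟨n, fun c hc => ?_⟩
  ext j
  have h1 : K n = K (n + j + 1) := hn (n + j + 1) (by omega)
  have h2 : c ∈ K (n + j + 1) := h1 ▸ ((hK n c).2 hc)
  rw [(hK _ c).1 h2 j (by omega), map_zero]

namespace Long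

variable {i d : ℕ} {H : Type} [AddCommGroup H] [Module ℂ H] {g : H →ₗ[ℂ] PowerSeries ℂ}
  {Eff : Prop} (L : Long i d g Eff)

include L

theorem pair_zero (τ : ℝ) (a : L.A) : L.pair τ 0 a = 0 := by
  have h := L.pair_smul τ 0 0 a
  rwa [zero_smul, zero_mul] at h

/-- The first part: up to order `i` there are no obstructions. -/
theorem ob_zero {l : ℕ} (hl : l + 1 < i) (x : L.S l) (hx : L.res l x = L.u) : L.ob l x = 0 := by
  obtain ⟨y, hy, hy0⟩ := L.pow l hl
  apply L.serre
  intro a
  have h1 : ∀ τ : ℝ, 0 < τ → τ ≤ 1 → coeff (l + 1) (L.f a) = (τ : ℂ) * L.pair τ (L.ob l x) a := by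
    intro τ h0 h1
    have h2 := L.taylor l a τ (y + (τ : ℂ) • (x - y)) h0 h1
      (by rw [map_add, map_smul, map_sub, hx, hy])
    rw [map_add, map_smul, map_sub, hy0, sub_zero, zero_add, L.pair_smul] at h2
    exact h2
  have h2 : Tendsto (fun _ : ℝ => coeff (l + 1) (L.f a)) (𝓝[>] 0) (𝓝 0) := by
    refine (L.growth (L.ob l x) a).congr' ?_
    filter_upwards [Ioc_mem_nhdsGT (zero_lt_one' ℝ)] with τ hτ
    exact (h1 τ hτ.1 hτ.2).symm
  have h3 : coeff (l + 1) (L.f a) = 0 := tendsto_nhds_unique tendsto_const_nhds h2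
  have h4 := h1 1 one_pos le_rfl
  rw [h3, Complex.ofReal_one, one_mul] at h4
  exact h4.symm

/-- If all obstructions below order `l` vanish then `u` lifts. -/
theorem exists_lift (l : ℕ) (h : ∀ j < l, ∀ x : L.S j, L.res j x = L.u → L.ob j x = 0) :
    ∃ x : L.S l, L.res l x = L.u := by
  induction l with
  | zero => exact L.res_onto L.u
  | succ l ih =>
    obtain ⟨x, hx⟩ := ih fun j hj => h j (by omega)
    obtain ⟨y, hy⟩ := L.lift l x (h l (by omega) x hx)
    exact ⟨y, by rw [← L.res_trunc, hy, hx]⟩

/-- the Taylor coefficients of `f_a` below order `i` are zero -/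
theorem coeff_zero (a : L.A) {n : ℕ} (hn : n < i) : coeff n (L.f a) = 0 := by
  rcases n with _ | l
  · exact L.f_zero a
  · obtain ⟨x, hx⟩ := L.exists_lift l fun j hj x hx => L.ob_zero (by omega) x hx
    have h1 := L.taylor l a 1 x one_pos le_rfl (by rw [hx]; simp)
    rw [h1, L.ob_zero hn x hx, L.pair_zero]

/-- **The second part**: a section which lifts to high order lifts to all orders. -/
theorem eff {l₀ : ℕ} (h₀ : ∀ c, (∀ l < l₀, coeff l (g c) = 0) → g c = 0) (hi : d * l₀ ≤ i) :
    Eff := by
  have hf : ∀ a, L.f a = 0 := by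
    intro a
    have h1 : (X : PowerSeries ℂ) ^ (d * l₀) ∣ L.f a :=
      X_pow_dvd_iff.2 fun m hm => L.coeff_zero a (lt_of_lt_of_le hm hi)
    have hu : IsUnit L.unit := isUnit_iff_constantCoeff.2 (isUnit_iff_ne_zero.2 L.unit_ne)
    rw [L.f_eq, hu.dvd_mul_left] at h1
    have h2 := X_pow_dvd_iff.1 h1
    have h3 : g (L.cls a) = 0 := by
      apply h₀
      intro l hl
      have h4 := h2 (d * l) (Nat.mul_lt_mul_of_pos_left hl L.d_pos)
      rw [pull, coeff_mk, if_pos (Nat.dvd_mul_right d l), Nat.mul_div_cancel_left l L.d_pos] at h4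
      exact h4
    have h5 : pull d (0 : PowerSeries ℂ) = 0 := by
      ext n
      simp [pull]
    rw [L.f_eq, h3, h5, mul_zero]
  have hob : ∀ l (x : L.S l), L.res l x = L.u → L.ob l x = 0 := by
    intro l x hx
    apply L.serre
    intro a
    have h1 := L.taylor l a 1 x one_pos le_rfl (by rw [hx]; simp)
    rw [← h1, hf, map_zero]
  choose! nx hnx using L.lift
  obtain ⟨x0, hx0⟩ := L.res_onto L.u
  let x : ∀ l, {x : L.S l // L.res l x = L.u} := fun l => Nat.rec ⟨x0, hx0⟩
    (fun l x => ⟨nx l x.1, by rw [← L.res_trunc, hnx l x.1 (hob l x.1 x.2), x.2]⟩) l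
  exact L.algebraize ⟨fun l => (x l).1, hx0, fun l => hnx l (x l).1 (hob l (x l).1 (x l).2)⟩

/-- so the order is bounded -/
theorem lt {l₀ : ℕ} (h₀ : ∀ c, (∀ l < l₀, coeff l (g c) = 0) → g c = 0) (h : ¬ Eff) :
    i < d * l₀ := by
  by_contra hi
  exact h (L.eff h₀ (not_lt.1 hi))

end Long

end Pool.Agent.H15.N2
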